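import Pool.Agent.E8helper65.HS.Stm

set_option autoImplicit false

open Polynomial

namespace Pool.Agent.E8helper87.HS

open Pool.Agent.E8helper65.HS

universe u v

section

variable {k : Type v} {K : Type u} [Field k] [CharZero k] [Field K] [Algebra k K]
    [Algebra (RatFunc k) K] [IsScalarTower k (RatFunc k) K] [FiniteDimensional (RatFunc k) K]

/-- the norm of `a - c` -/
theorem norm_sub (a : K) (c : k) :
    Algebra.norm (RatFunc k) (a - algebraMap k K c) =
      ((-1) ^ (minpoly (RatFunc k) a).natDegree *
        (minpoly (RatFunc k) a).eval (algebraMap k (RatFunc k) c)) ^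
        Module.finrank (IntermediateField.adjoin (RatFunc k) {a}) K := by
  have hc : algebraMap k K c = algebraMap (RatFunc k) K (algebraMap k (RatFunc k) c) :=
    IsScalarTower.algebraMap_apply k (RatFunc k) K c
  set x := a - algebraMap k K c with hx
  have hmin : minpoly (RatFunc k) x =
      (minpoly (RatFunc k) a).comp (X + C (algebraMap k (RatFunc k) c)) := by
    rw [hx, hc, minpoly.sub_algebraMap]
  have hxi : IsIntegral (RatFunc k) x := IsIntegral.of_finite _ _
  have hai : IsIntegral (RatFunc k) a := IsIntegral.of_finite _ _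
  have hdeg : (minpoly (RatFunc k) x).natDegree = (minpoly (RatFunc k) a).natDegree := by
    rw [hmin, natDegree_comp, natDegree_X_add_C, mul_one]
  have hfx := Module.finrank_mul_finrank (RatFunc k) (IntermediateField.adjoin (RatFunc k) {x}) K
  have hfa := Module.finrank_mul_finrank (RatFunc k) (IntermediateField.adjoin (RatFunc k) {a}) K
  rw [IntermediateField.adjoin.finrank hxi, hdeg] at hfx
  rw [IntermediateField.adjoin.finrank hai] at hfa
  have hpos : 0 < (minpoly (RatFunc k) a).natDegree := minpoly.natDegree_pos hai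
  have hm : Module.finrank (IntermediateField.adjoin (RatFunc k) {x}) K =
      Module.finrank (IntermediateField.adjoin (RatFunc k) {a}) K := by
    have := hfx.trans hfa.symm
    exact Nat.eq_of_mul_eq_mul_left hpos this
  rw [Algebra.norm_eq_norm_adjoin, hm]
  congr 1
  have h1 := Algebra.PowerBasis.norm_gen_eq_coeff_zero_minpoly
    (IntermediateField.adjoin.powerBasis hxi)
  rw [IntermediateField.adjoin.powerBasis_gen, IntermediateField.adjoin.powerBasis_dim,
    IntermediateField.minpoly_gen, hdeg] at h1
  rw [h1, hmin, coeff_zero_eq_eval_zero, eval_comp, eval_add, eval_X, eval_C, zero_add]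

/-- polynomials of degree at most `H` -/
noncomputable def VH (k : Type v) [Field k] (H : ℕ) : Submodule k (RatFunc k) :=
  (degreeLE k (H : WithBot ℕ)).map ((Algebra.linearMap k[X] (RatFunc k)).restrictScalars k)

omit [CharZero k] in
theorem mem_VH {H : ℕ} {f : RatFunc k} :
    f ∈ VH k H ↔ ∃ q : k[X], q.natDegree ≤ H ∧ algebraMap k[X] (RatFunc k) q = f := by
  constructor
  · rintro ⟨q, hq, rfl⟩
    exact ⟨q, natDegree_le_of_degree_le (mem_degreeLE.1 hq), rfl⟩
  · rintro ⟨q, hq, rfl⟩
    exact ⟨q, mem_degreeLE.2 (degree_le_of_natDegree_le hq), rfl⟩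

/-- interpolation -/
theorem interp (V : Submodule k (RatFunc k)) (G : (RatFunc k)[X])
    (h : ∀ c : k, G.eval (algebraMap k (RatFunc k) c) ∈ V) (j : ℕ) : G.coeff j ∈ V := by
  by_contra hj
  obtain ⟨φ, hφ, hV⟩ := Submodule.exists_le_ker_of_notMem hj
  let P : k[X] := ∑ i ∈ Finset.range (G.natDegree + 1), monomial i (φ (G.coeff i))
  have hP : P = 0 := by
    apply Polynomial.funext
    intro c
    rw [eval_zero, eval_finsetSum]
    have h1 : φ (G.eval (algebraMap k (RatFunc k) c)) = 0 := hV (h c)
    rw [eval_eq_sum_range, map_sum] at h1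
    rw [← h1]
    refine Finset.sum_congr rfl fun i _ => ?_
    rw [eval_monomial, ← map_pow, mul_comm (G.coeff i), ← Algebra.smul_def, map_smul, smul_eq_mul,
      mul_comm]
  have hjle : j ≤ G.natDegree := by
    by_contra hlt
    apply hφ
    rw [coeff_eq_zero_of_natDegree_lt (not_le.1 hlt), map_zero]
  apply hφ
  have h2 : P.coeff j = φ (G.coeff j) := by
    simp only [P, finsetSum_coeff, coeff_monomial]
    rw [Finset.sum_ite_eq' (Finset.range (G.natDegree + 1)) j fun i => φ (G.coeff i)]
    rw [if_pos (Finset.mem_range.2 (by omega))]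
  rw [← h2, hP, coeff_zero]

end

section

variable {k : Type v} {K : Type u} [Field k] [Field K] [Algebra k K]
  (E : IntermediateField k K) (a : E)

/-- substitute `a` for the outer variable -/
noncomputable def ev : k[X][X] →+* E[X] :=
  eval₂RingHom (mapRingHom (algebraMap k E)) (C a)

theorem ev_C (p : k[X]) : ev E a (C p) = p.map (algebraMap k E) := by
  simp [ev]

theorem ev_eq (R : k[X][X]) : ev E a R =
    ∑ i ∈ Finset.range (R.natDegree + 1), (R.coeff i).map (algebraMap k E) * C a ^ i := by
  simp [ev, eval₂_eq_sum_range]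

theorem ev_natDegree (R : k[X][X]) (H : ℕ) (h : ∀ i, (R.coeff i).natDegree ≤ H) :
    (ev E a R).natDegree ≤ H := by
  rw [ev_eq]
  apply natDegree_sum_le_of_forall_le
  intro i _
  rw [← C_pow]
  refine (natDegree_mul_C_le _ _).trans ?_
  exact (natDegree_map_le).trans (h i)

theorem ev_ne (ha : Transcendental k a) (R : k[X][X]) (hR : R ≠ 0) : ev E a R ≠ 0 := by
  intro h0
  apply hR
  ext i j
  by_cases hi : i ∈ Finset.range (R.natDegree + 1)
  · let P : k[X] := ∑ i ∈ Finset.range (R.natDegree + 1), monomial i ((R.coeff i).coeff j)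
    have hP : aeval a P = 0 := by
      have h1 : (ev E a R).coeff j = 0 := by rw [h0, coeff_zero]
      rw [ev_eq, finsetSum_coeff] at h1
      rw [map_sum, ← h1]
      refine Finset.sum_congr rfl fun i _ => ?_
      rw [aeval_monomial, ← C_pow, coeff_mul_C, coeff_map]
    have hP0 : P = 0 := (transcendental_iff.1 ha) P hP
    have h2 : P.coeff i = (R.coeff i).coeff j := by
      simp only [P, finsetSum_coeff, coeff_monomial]
      rw [Finset.sum_ite_eq' (Finset.range (R.natDegree + 1)) i fun i => (R.coeff i).coeff j,
        if_pos hi]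
    rw [← h2, hP0]
    simp
  · have : R.coeff i = 0 := coeff_eq_zero_of_natDegree_lt (by
      rw [Finset.mem_range, not_lt] at hi
      omega)
    rw [this]
    simp

end

section

variable {k : Type v} {K : Type u} [Field k] [Field K] [Algebra k K]
    [Algebra (RatFunc k) K] [IsScalarTower k (RatFunc k) K]

theorem map_poly (p : k[X]) : algebraMap (RatFunc k) K (algebraMap k[X] (RatFunc k) p) =
    aeval (algebraMap (RatFunc k) K RatFunc.X) p := by
  have h : ((algebraMap (RatFunc k) K).comp (algebraMap k[X] (RatFunc k))) =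
      (aeval (R := k) (algebraMap (RatFunc k) K RatFunc.X)).toRingHom := by
    apply Polynomial.ringHom_ext
    · intro c
      simp only [RingHom.comp_apply]
      change _ = aeval _ (C c)
      rw [aeval_C, IsScalarTower.algebraMap_apply k (RatFunc k) K]
      rw [RatFunc.algebraMap_C]
      rfl
    · simp only [RingHom.comp_apply]
      change _ = aeval _ X
      rw [aeval_X, RatFunc.algebraMap_X]
  exact congrArg (fun f : k[X] →+* K => f p) h

/-- the fields `k(a, t)` and `F(a)` have the same elements -/
theorem same_field (a : K) :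
    (IntermediateField.adjoin (IntermediateField.adjoin k {a})
      {algebraMap (RatFunc k) K RatFunc.X}).toSubfield =
    (IntermediateField.adjoin (RatFunc k) {a}).toSubfield := by
  apply le_antisymm
  · rw [IntermediateField.adjoin_toSubfield, Subfield.closure_le]
    rintro x (⟨⟨y, hy⟩, rfl⟩ | hx)
    · have h1 : (IntermediateField.adjoin k {a}).toSubfield ≤
          (IntermediateField.adjoin (RatFunc k) {a}).toSubfield := by
        rw [IntermediateField.adjoin_toSubfield, Subfield.closure_le]
        rintro x (⟨c, rfl⟩ | hx)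
        · rw [IsScalarTower.algebraMap_apply k (RatFunc k) K]
          exact IntermediateField.algebraMap_mem _ _
        · rw [Set.mem_singleton_iff] at hx
          subst hx
          exact IntermediateField.mem_adjoin_simple_self _ _
      exact h1 hy
    · rw [Set.mem_singleton_iff] at hx
      subst hx
      exact IntermediateField.algebraMap_mem _ _
  · rw [IntermediateField.adjoin_toSubfield (RatFunc k), Subfield.closure_le]
    rintro x (⟨f, rfl⟩ | hx)
    · set L := IntermediateField.adjoin (IntermediateField.adjoin k {a})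
        {algebraMap (RatFunc k) K RatFunc.X} with hL
      have hp : ∀ p : k[X], algebraMap (RatFunc k) K (algebraMap k[X] (RatFunc k) p) ∈ L := by
        intro p
        rw [map_poly, aeval_eq_sum_range]
        refine sum_mem fun i _ => ?_
        rw [Algebra.smul_def]
        refine mul_mem ?_ (pow_mem (IntermediateField.mem_adjoin_simple_self _ _) _)
        exact L.algebraMap_mem ⟨algebraMap k K (p.coeff i), IntermediateField.algebraMap_mem _ _⟩
      rw [← RatFunc.num_div_denom f, map_div₀]
      exact div_mem (hp _) (hp _)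
    · rw [Set.mem_singleton_iff] at hx
      subst hx
      exact IntermediateField.algebraMap_mem
        (IntermediateField.adjoin (IntermediateField.adjoin k {x})
        {algebraMap (RatFunc k) K RatFunc.X}) ⟨x, IntermediateField.mem_adjoin_simple_self _ _⟩

end

/-- evaluation of `ev` at `t` -/
theorem aeval_ev {k : Type v} {K : Type u} [Field k] [Field K] [Algebra k K]
    [Algebra (RatFunc k) K] [IsScalarTower k (RatFunc k) K] (E : IntermediateField k K) (a : E)
    (R : k[X][X]) :
    aeval (algebraMap (RatFunc k) K RatFunc.X) (ev E a R) =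
      aeval (a : K) (R.map (algebraMap k[X] (RatFunc k))) := by
  rw [ev_eq, map_sum, aeval_def (a : K), eval₂_map, eval₂_eq_sum_range]
  refine Finset.sum_congr rfl fun i _ => ?_
  rw [map_mul, map_pow, aeval_C, aeval_map_algebraMap, ← map_poly]
  rfl

/-- Piece DEG. -/
theorem t_DEG : S_DEG.{u, v} := by
  intro k K _ _ _ _ _ _ _ a W H hW ha hN
  set μ := minpoly (RatFunc k) a with hμ
  set m := Module.finrank (IntermediateField.adjoin (RatFunc k) {a}) K with hm
  set φ := algebraMap k[X] (RatFunc k) with hφ
  have hφinj : Function.Injective φ := IsFractionRing.injective k[X] (RatFunc k)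
  have hai : IsIntegral (RatFunc k) a := IsIntegral.of_finite _ _
  have hμ0 : μ ≠ 0 := minpoly.ne_zero hai
  -- interpolation
  let G : (RatFunc k)[X] := C (φ W) * μ ^ m
  have hG : ∀ c : k, G.eval (algebraMap k (RatFunc k) c) ∈ VH k H := by
    intro c
    obtain ⟨q, hq, hq2⟩ := hN c
    rw [norm_sub, ← hμ, ← hm, mul_pow, ← pow_mul] at hq2
    rw [mem_VH]
    refine ⟨(-1) ^ (μ.natDegree * m) * q, ?_, ?_⟩
    · rcases neg_one_pow_eq_or k[X] (μ.natDegree * m) with h | h
      · rw [h, one_mul]; exact hq
      · rw [h, neg_one_mul, natDegree_neg]; exact hq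
    · simp only [G, eval_mul, eval_C, eval_pow]
      rw [map_mul, map_pow, map_neg, map_one, ← hq2]
      rw [mul_left_comm, ← mul_assoc ((-1 : RatFunc k) ^ (μ.natDegree * m)), ← mul_pow]
      simp
  have hcoeff : ∀ i, ∃ q : k[X], q.natDegree ≤ H ∧ φ q = G.coeff i := fun i =>
    mem_VH.1 (interp (VH k H) G hG i)
  choose q hqd hqe using hcoeff
  let Q : k[X][X] := ∑ i ∈ Finset.range (G.natDegree + 1), monomial i (q i)
  have hQc : ∀ i, Q.coeff i = if i ∈ Finset.range (G.natDegree + 1) then q i else 0 := by
    intro i
    simp only [Q, finsetSum_coeff, coeff_monomial]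
    rw [Finset.sum_ite_eq' (Finset.range (G.natDegree + 1)) i q]
  have hQG : Q.map φ = G := by
    ext i
    rw [coeff_map, hQc]
    split_ifs with h
    · exact hqe i
    · rw [Finset.mem_range, not_lt] at h
      rw [map_zero, coeff_eq_zero_of_natDegree_lt (by omega)]
  have hQd : ∀ i, (Q.coeff i).natDegree ≤ H := by
    intro i
    rw [hQc]
    split_ifs
    · exact hqd i
    · simp
  have hG0 : G ≠ 0 := mul_ne_zero (C_ne_zero.2 (by
    rw [Ne, ← map_zero φ]
    exact fun h => hW (hφinj h))) (pow_ne_zero _ hμ0)
  have hQ0 : Q ≠ 0 := by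
    rintro h
    rw [h, Polynomial.map_zero] at hQG
    exact hG0 hQG.symm
  -- denominators
  obtain ⟨l, hlm, hl⟩ := IsLocalization.integerNormalization_spec (nonZeroDivisors k[X]) μ
  set M := IsLocalization.integerNormalization (nonZeroDivisors k[X]) μ with hM
  have hl0 : (l : k[X]) ≠ 0 := nonZeroDivisors.ne_zero hlm
  have hlM : M.map φ = C (φ l) * μ := by
    rw [hl]
    ext i
    rw [coeff_smul, coeff_C_mul, Algebra.smul_def]
  have hrel : C (l : k[X]) ^ m * Q = C W * M ^ m := by
    apply Polynomial.map_injective φ hφinj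
    rw [Polynomial.map_mul, Polynomial.map_mul, Polynomial.map_pow, Polynomial.map_pow, map_C, map_C,
      hQG, hlM, mul_pow]
    simp only [G]
    ring
  have hM0 : M ≠ 0 := by
    rintro h
    rw [h, Polynomial.map_zero] at hlM
    refine (mul_ne_zero (C_ne_zero.2 ?_) hμ0) hlM.symm
    rw [Ne, ← map_zero φ]
    exact fun h => hl0 (hφinj h)
  -- over `E = k(a)`
  set E := IntermediateField.adjoin k {a} with hE
  let aE : E := ⟨a, IntermediateField.mem_adjoin_simple_self k a⟩
  set t : K := algebraMap (RatFunc k) K RatFunc.X with ht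
  have haE : Transcendental k aE := by
    intro h
    exact ha (h.algebraMap (A := K))
  have hevM : ev E aE M ≠ 0 := ev_ne E aE haE M hM0
  have hevQ : ev E aE Q ≠ 0 := ev_ne E aE haE Q hQ0
  have htM : aeval t (ev E aE M) = 0 := by
    rw [ht, aeval_ev, ← hφ, hlM, map_mul]
    change _ * aeval a μ = 0
    rw [hμ, minpoly.aeval, mul_zero]
  have hti : IsIntegral E t := (IsAlgebraic.isIntegral ⟨_, hevM, htM⟩)
  set ν := minpoly E t with hν
  have hνp : Prime ν := (minpoly.irreducible hti).prime
  have hνM : ν ∣ ev E aE M := minpoly.dvd E t htM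
  have hrel2 : ((l : k[X]).map (algebraMap k E)) ^ m * ev E aE Q =
      W.map (algebraMap k E) * (ev E aE M) ^ m := by
    have := congrArg (ev E aE) hrel
    rw [map_mul, map_mul, map_pow, map_pow, ev_C, ev_C] at this
    exact this
  have hνl : ¬ ν ∣ ((l : k[X]).map (algebraMap k E)) ^ m := by
    intro h
    have h1 := hνp.dvd_of_dvd_pow h
    have h2 : aeval t ((l : k[X]).map (algebraMap k E)) = 0 := by
      obtain ⟨r, hr⟩ := h1
      rw [hr, map_mul, hν, minpoly.aeval, zero_mul]
    rw [aeval_map_algebraMap, ht, ← map_poly] at h2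
    have h3 : φ l = 0 := (map_eq_zero _).1 h2
    rw [← map_zero φ] at h3
    exact hl0 (hφinj h3)
  have hνQ : ν ^ m ∣ ev E aE Q := by
    apply hνp.pow_dvd_of_dvd_mul_left m hνl
    rw [hrel2]
    exact (pow_dvd_pow_of_dvd hνM m).mul_left _
  have hdeg : m * ν.natDegree ≤ H := by
    have h1 := natDegree_le_of_dvd hνQ hevQ
    rw [natDegree_pow] at h1
    exact h1.trans (ev_natDegree E aE Q H hQd)
  -- degrees
  have h1 := Module.finrank_mul_finrank E (IntermediateField.adjoin E {t}) K
  rw [IntermediateField.adjoin.finrank hti] at h1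
  have h2 : Module.finrank (IntermediateField.adjoin E {t}) K = m := by
    have h3 : Module.finrank (IntermediateField.adjoin E {t}).toSubfield K =
        Module.finrank (IntermediateField.adjoin (RatFunc k) {a}).toSubfield K := by
      rw [same_field]
    exact h3
  rw [h2] at h1
  rw [← h1, mul_comm]
  exact hdeg

end Pool.Agent.E8helper87.HS
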